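import Pool.Agent.H87.IS.Stmts

/-!
# Row TQ of the board `isq`
-/

set_option autoImplicit false

namespace Pool.Agent.H87.IS

open MvPolynomial Pool.Agent.H39.MonoR Pool.Agent.H75.Mono Pool.Agent.H87.QF

namespace TQAux

variable {k : Type} [Field k] {σ : Type}

/-- a polynomial of order at least three, from its derivatives at the origin -/
lemma ord_three [CharZero k] [DecidableEq σ] (R : MvPolynomial σ k) (h0 : eval (0 : σ → k) R = 0)
    (h1 : ∀ i, eval (0 : σ → k) (pderiv i R) = 0)
    (h2 : ∀ i j, eval (0 : σ → k) (pderiv i (pderiv j R)) = 0) : Ord 3 R := by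
  have ev : ∀ G : MvPolynomial σ k, eval (0 : σ → k) G = coeff 0 G := by
    intro G
    rw [← constantCoeff_eq]
    have : (eval (0 : σ → k)) = constantCoeff := by
      ext i <;> simp
    rw [this]
  have c0 : coeff 0 R = 0 := by rw [← ev]; exact h0
  have c1 : ∀ i, coeff (Finsupp.single i 1) R = 0 := by
    intro i
    have h := h1 i
    rw [ev, coeff_pderiv] at h
    simpa using h
  have c2 : ∀ i j, coeff (Finsupp.single i 1 + Finsupp.single j 1) R = 0 := by
    intro i j
    have h := h2 i j
    rw [ev, coeff_pderiv, coeff_pderiv] at h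
    simp only [zero_add, Finsupp.coe_zero, Pi.zero_apply, Nat.cast_zero, mul_one] at h
    rcases mul_eq_zero.1 h with h | h
    · exact h
    · exfalso
      have : ((((Finsupp.single i 1 : σ →₀ ℕ) j + 1 : ℕ)) : k) ≠ 0 := Nat.cast_ne_zero.2 (by omega)
      apply this
      push_cast
      exact h
  intro m hm
  rcases Nat.lt_or_ge m.degree 1 with hd | hd
  · have : m = 0 := by
      rw [← Finsupp.degree_eq_zero_iff]
      omega
    rw [this]
    exact c0
  · have hm0 : m ≠ 0 := by
      rintro rfl
      simp at hd
    obtain ⟨i, hi⟩ : ∃ i, m i ≠ 0 := by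
      by_contra hcon
      push Not at hcon
      exact hm0 (Finsupp.ext hcon)
    have hle : Finsupp.single i 1 ≤ m := by
      rw [Finsupp.single_le_iff]
      omega
    obtain ⟨m', hm'⟩ := exists_add_of_le hle
    have hd' : m'.degree + 1 = m.degree := by
      rw [hm', map_add, Finsupp.degree_single]
      ring
    rcases Nat.lt_or_ge m'.degree 1 with hd2 | hd2
    · have : m' = 0 := by
        rw [← Finsupp.degree_eq_zero_iff]
        omega
      rw [hm', this, add_zero]
      exact c1 i
    · have hm0' : m' ≠ 0 := by
        rintro rfl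
        simp at hd2
      obtain ⟨j, hj⟩ : ∃ j, m' j ≠ 0 := by
        by_contra hcon
        push Not at hcon
        exact hm0' (Finsupp.ext hcon)
      have hle' : Finsupp.single j 1 ≤ m' := by
        rw [Finsupp.single_le_iff]
        omega
      obtain ⟨m'', hm''⟩ := exists_add_of_le hle'
      have hd'' : m''.degree + 1 = m'.degree := by
        rw [hm'', map_add, Finsupp.degree_single]
        ring
      have : m'' = 0 := by
        rw [← Finsupp.degree_eq_zero_iff]
        omega
      rw [hm', hm'', this, add_zero]
      exact c2 i j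

/-- the linear change of coordinates -/
noncomputable def ph [Fintype σ] (x0 : σ → k) (A : Matrix σ σ k) (i : σ) : MvPolynomial σ k :=
  C (x0 i) + ∑ j, C (A i j) * X j

/-- the chain rule -/
lemma chain [Fintype σ] [DecidableEq σ] (x0 : σ → k) (A : Matrix σ σ k) (i : σ)
    (f : MvPolynomial σ k) : pderiv i (aeval (ph x0 A) f)
      = ∑ a, C (A a i) * aeval (ph x0 A) (pderiv a f) := by
  have hX : ∀ s : σ, pderiv i (ph x0 A s) = C (A s i) := by
    intro s
    rw [ph, map_add, pderiv_C, zero_add, map_sum]
    rw [Finset.sum_eq_single i]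
    · rw [Derivation.leibniz, pderiv_C, pderiv_X_self]
      simp
    · intro b _ hb
      rw [Derivation.leibniz, pderiv_C, pderiv_X_of_ne hb]
      simp
    · intro h
      exact absurd (Finset.mem_univ i) h
  induction f using MvPolynomial.induction_on with
  | C c => simp
  | add p q hp hq =>
    rw [map_add, map_add, hp, hq, ← Finset.sum_add_distrib]
    refine Finset.sum_congr rfl fun a _ => ?_
    rw [map_add, map_add, mul_add]
  | mul_X p s hp =>
    rw [map_mul, aeval_X, Derivation.leibniz, hp, hX]
    have h1 : ∀ a, C (A a i) * aeval (ph x0 A) (pderiv a (p * X s))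
        = ph x0 A s * (C (A a i) * aeval (ph x0 A) (pderiv a p))
          + C (A a i) * (aeval (ph x0 A) p * (if a = s then 1 else 0)) := by
      intro a
      rw [Derivation.leibniz, map_add, smul_eq_mul, smul_eq_mul, map_mul, map_mul, aeval_X]
      by_cases has : a = s
      · subst has
        rw [pderiv_X_self, if_pos rfl, map_one]
        ring
      · rw [pderiv_X_of_ne (Ne.symm has), if_neg has, map_zero]
        ring
    have h2 : ∑ a, C (A a i) * (aeval (ph x0 A) p * (if a = s then 1 else 0))
        = C (A s i) * aeval (ph x0 A) p := by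
      rw [Finset.sum_eq_single s]
      · rw [if_pos rfl, mul_one]
      · intro b _ hb
        rw [if_neg hb, mul_zero, mul_zero]
      · intro h
        exact absurd (Finset.mem_univ s) h
    rw [Finset.sum_congr rfl (fun a _ => h1 a), Finset.sum_add_distrib, ← Finset.mul_sum, h2,
      smul_eq_mul, smul_eq_mul]
    ring

/-- evaluation at the origin -/
lemma ev_ph [Fintype σ] (x0 : σ → k) (A : Matrix σ σ k) (g : MvPolynomial σ k) :
    eval (0 : σ → k) (aeval (ph x0 A) g) = eval x0 g := by
  have h : (eval (0 : σ → k)).comp (aeval (ph x0 A) : MvPolynomial σ k →ₐ[k] _).toRingHom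
      = eval x0 := by
    apply MvPolynomial.ringHom_ext
    · intro r
      simp
    · intro i
      simp [ph]
  exact congrArg (fun φ : MvPolynomial σ k →+* k => φ g) h

end TQAux

open TQAux in
theorem TQ : TQStmt := by
  intro k _ _ σ _ _ f x0 A U hx hA
  obtain ⟨hf0, hf1⟩ := hx
  show Ord 3 (aeval (ph x0 A) f - ∑ i, C (U i / 2) * X i ^ 2)
  have hd : ∀ i j, ∑ a, ∑ b, A a i * A b j * eval x0 (pderiv a (pderiv b f))
      = if i = j then U i else 0 := by
    intro i j
    have h1 := congrFun (congrFun hA i) j
    rw [Matrix.diagonal_apply] at h1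
    rw [← h1, Matrix.mul_apply]
    simp only [Matrix.mul_apply, Matrix.transpose_apply, hess, Matrix.of_apply, Finset.sum_mul]
    rw [Finset.sum_comm]
    refine Finset.sum_congr rfl fun b _ => Finset.sum_congr rfl fun a _ => ?_
    ring
  have hsq1 : ∀ i, pderiv i (∑ l, C (U l / 2) * X l ^ 2 : MvPolynomial σ k) = C (U i) * X i := by
    intro i
    have h1 : ∀ l, pderiv i (C (U l / 2) * X l ^ 2 : MvPolynomial σ k)
        = if l = i then C (U i) * X i else 0 := by
      intro l
      rw [pderiv_C_mul, pderiv_pow]
      by_cases hl : l = i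
      · subst hl
        rw [if_pos rfl, pderiv_X_self, mul_one, Nat.cast_ofNat, pow_one,
          show (2 : MvPolynomial σ k) = C (2 : k) from (map_ofNat C 2).symm, ← mul_assoc, ← C_mul]
        congr 2
        field_simp
      · rw [if_neg hl, pderiv_X_of_ne hl, mul_zero, mul_zero]
    rw [map_sum, Finset.sum_congr rfl (fun l _ => h1 l), Finset.sum_ite_eq' Finset.univ i]
    simp
  apply ord_three
  · rw [map_sub, ev_ph, hf0, map_sum]
    simp
  · intro i
    rw [map_sub, chain, hsq1, map_sub, map_sum]
    simp only [map_mul, eval_C, ev_ph, hf1, eval_X, Pi.zero_apply, mul_zero,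
      Finset.sum_const_zero, sub_zero]
  · intro i j
    rw [map_sub, chain, hsq1, map_sub, map_sub, map_sum, map_sum]
    have h1 : ∀ a, eval (0 : σ → k) (pderiv i (C (A a j) * aeval (ph x0 A) (pderiv a f)))
        = ∑ b, A b i * A a j * eval x0 (pderiv b (pderiv a f)) := by
      intro a
      rw [Derivation.leibniz, pderiv_C, smul_zero, add_zero, smul_eq_mul, map_mul, eval_C, chain,
        map_sum, Finset.mul_sum]
      refine Finset.sum_congr rfl fun b _ => ?_
      rw [map_mul, eval_C, ev_ph]
      ring
    rw [Finset.sum_congr rfl (fun a _ => h1 a), Finset.sum_comm, hd]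
    rw [Derivation.leibniz, pderiv_C, smul_zero, add_zero, smul_eq_mul, map_mul, eval_C]
    by_cases hij : i = j
    · subst hij
      rw [if_pos rfl, pderiv_X_self, map_one, mul_one, sub_self]
    · rw [if_neg hij, pderiv_X_of_ne (Ne.symm hij), map_zero, mul_zero, sub_self]

end Pool.Agent.H87.IS
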