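import Pool.Agent.H87.IS.Stmts2

/-!
# Row TSP of the board `isq`
-/

set_option autoImplicit false

namespace Pool.Agent.H87.IS

open MvPolynomial Pool.Agent.H39.MonoR Pool.Agent.H75.Mono Pool.Agent.H87.QF

namespace TSPAux

variable {k : Type} [Field k] [Algebra k ℂ]

/-- critical values -/
lemma exists_crit [IsAlgClosed k] {τ : Type} [Finite τ] (f : MvPolynomial τ k) :
    ∃ T : Finset k, ∀ a : ℂ, ¬ Sm f a → ∃ b ∈ T, a = algebraMap k ℂ b := by
  have : CharZero k := charZero k
  obtain ⟨T, hT⟩ := sard (R := ℂ) f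
  refine ⟨T, fun a ha => ?_⟩
  unfold Sm at ha
  push Not at ha
  obtain ⟨x, hx, hx'⟩ := ha
  obtain ⟨b, hb, hb'⟩ := hT x hx'
  exact ⟨b, hb, by rw [← hx, hb']⟩

lemma aeval_map_eq {r : ℕ} (b : Fin r → k) (P : MvPolynomial (Fin r) k) :
    aeval (fun i => algebraMap k ℂ (b i)) P = algebraMap k ℂ (eval b P) := by
  have h := MvPolynomial.aeval_algebraMap_apply (A := k) ℂ b P
  have h2 : aeval b P = eval b P := by
    rw [← MvPolynomial.coe_aeval_eq_eval]
    rfl
  rw [h2] at h
  exact h

variable {σ : Type} [Fintype σ] [DecidableEq σ]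

/-- nonconstant and good at all values, in the variables of `s` -/
def Qa (s : Finset σ) (f : MvPolynomial σ k) : Prop :=
  Nc f ∧ f.vars ⊆ s ∧ ∀ a, P3 (res s f) a

lemma nc_res {s : Finset σ} {f : MvPolynomial σ k} (hv : f.vars ⊆ s) (hf : Nc f) :
    Nc (res s f) := by
  rwa [← nc_rename Subtype.val_injective, rename_res hv]

/-- sums -/
lemma Qa.add [IsAlgClosed k] {s t : Finset σ} {f g : MvPolynomial σ k} (hd : Disjoint s t)
    (hf : Qa s f) (hg : Qa t g) : Qa (s ∪ t) (f + g) := by
  classical
  obtain ⟨hf1, hf2, hf3⟩ := hf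
  obtain ⟨hg1, hg2, hg3⟩ := hg
  refine ⟨?_, ?_, fun a => ?_⟩
  · obtain ⟨i, hi⟩ := hf1
    refine ⟨i, ?_⟩
    have h0 : i ∈ f.vars := by
      by_contra h'
      exact hi (pderiv_eq_zero_of_notMem_vars h')
    have h1 : i ∉ g.vars := fun h => Finset.disjoint_left.1 hd (hf2 h0) (hg2 h)
    rw [map_add, pderiv_eq_zero_of_notMem_vars h1, add_zero]
    exact hi
  · refine (vars_add_subset _ _).trans ?_
    exact Finset.union_subset_union hf2 hg2
  · obtain ⟨T1, hT1⟩ := exists_crit (res s f)
    obtain ⟨T2, hT2⟩ := exists_crit (res t g)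
    let G : MvPolynomial (Fin (1 + 1)) k := X 0 + X 1
    let S : Fin (1 + 1) → Finset σ := ![s, t]
    let ff : Fin (1 + 1) → MvPolynomial σ k := ![f, g]
    let T : Finset (Fin (1 + 1) → k) :=
      ((T1 ×ˢ T2).image fun z => ![z.1, z.2]).filter fun b => eval b G = a
    have hs : Finset.univ.biUnion S = s ∪ t := by
      ext i
      simp [S, Fin.exists_fin_two]
    have hdd : ∀ i j, i ≠ j → Disjoint (S i) (S j) := by
      intro i j hij
      fin_cases i <;> fin_cases j <;> first | exact absurd rfl hij | exact hd | exact hd.symm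
    have hvv : ∀ i, (ff i).vars ⊆ S i := by
      intro i
      fin_cases i
      · exact hf2
      · exact hg2
    have hG : aeval ff G = f + g := by
      simp [G, ff]
    have hGp : ∀ i, pderiv i G = 1 := by
      intro i
      fin_cases i <;> simp [G]
    obtain ⟨e, he⟩ := res_aeval hdd hvv G
    have key : P3 (res (Finset.univ.biUnion S) (aeval ff G)) a := by
      rw [he]
      refine (P3.gate (T := T) (w := fun _ _ => 1) (n := fun _ => 1) (B := fun _ => ∅) ?_ ?_ ?_
        (fun b _ i hi => absurd hi (by simp)) ?_ ?_).equiv e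
      · intro x hx hx'
        have h3 : ∀ i, ¬ Sm (res (S i) (ff i)) (x i) := fun i => (hx' i).resolve_left (by
          rw [hGp, map_one]
          exact one_ne_zero)
        obtain ⟨b1, hb1, e1⟩ := hT1 _ (h3 0)
        obtain ⟨b2, hb2, e2⟩ := hT2 _ (h3 1)
        have ex : ∀ i, x i = algebraMap k ℂ ((![b1, b2] : Fin (1 + 1) → k) i) := by
          intro i
          fin_cases i
          · exact e1
          · exact e2
        refine ⟨![b1, b2], ?_, ex⟩
        rw [Finset.mem_filter, Finset.mem_image]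
        refine ⟨⟨(b1, b2), Finset.mem_product.2 ⟨hb1, hb2⟩, rfl⟩, ?_⟩
        have ex' : x = fun i => algebraMap k ℂ ((![b1, b2] : Fin (1 + 1) → k) i) := funext ex
        rw [ex', aeval_map_eq] at hx
        exact (algebraMap k ℂ).injective hx
      · intro b hb
        exact (Finset.mem_filter.1 hb).2
      · intro b hb
        have hba := (Finset.mem_filter.1 hb).2
        exact SWH.linear hba (fun i => by rw [hGp, map_one]; exact one_ne_zero)
      · intro i
        fin_cases i
        · exact nc_res hf2 hf1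
        · exact nc_res hg2 hg1
      · intro b _ i
        fin_cases i
        · exact hf3 _
        · exact hg3 _
    rw [hG, hs] at key
    exact key

/-- at most two variables -/
lemma Qa.small [IsAlgClosed k] (hONE : ONEStmt) {s : Finset σ} {f : MvPolynomial σ k}
    (hs : s.Nonempty) (hs2 : s.card ≤ 2) (hv : f.vars ⊆ s) (hf : Nc f) : Qa s f := by
  refine ⟨hf, hv, fun a => ?_⟩
  have h1 : 1 ≤ s.card := hs.card_pos
  rcases Nat.lt_or_ge s.card 2 with h | h
  · exact hONE k {x // x ∈ s} (res s f) a (by rw [Fintype.card_coe]; omega) (nc_res hv hf)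
  · have h2 : s.card = 2 := by omega
    have e : Fin 2 ≃ {x // x ∈ s} := (Fintype.equivFinOfCardEq (by simpa using h2)).symm
    have h1 : Nc (rename e.symm (res s f)) := by
      rw [nc_rename e.symm.injective]
      exact nc_res hv hf
    have h3 := (P3.plane h1 a).equiv e
    rwa [rename_rename, Equiv.self_comp_symm, rename_id_apply] at h3

open Classical in
/-- the part of a polynomial -/
noncomputable def cut (p : (σ →₀ ℕ) → Prop) (F : MvPolynomial σ k) : MvPolynomial σ k :=
  ∑ m ∈ F.support.filter p, monomial m (coeff m F)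

omit [Algebra k ℂ] [Fintype σ] in
open Classical in
lemma coeff_cut (p : (σ →₀ ℕ) → Prop) (F : MvPolynomial σ k) (m : σ →₀ ℕ) :
    coeff m (cut p F) = if p m then coeff m F else 0 := by
  rw [cut, coeff_sum]
  have h1 : ∀ l ∈ F.support.filter p, coeff m (monomial l (coeff l F))
      = if l = m then coeff l F else 0 := by
    intro l _
    rw [coeff_monomial]
  rw [Finset.sum_congr rfl h1, Finset.sum_ite_eq']
  by_cases hp : p m
  · rw [if_pos hp]
    by_cases hm : coeff m F = 0
    · rw [hm]
      exact ite_self _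
    · rw [if_pos]
      rw [Finset.mem_filter, mem_support_iff]
      exact ⟨hm, hp⟩
  · rw [if_neg hp, if_neg]
    rw [Finset.mem_filter]
    exact fun h => hp h.2

omit [Algebra k ℂ] [Fintype σ] in
lemma cut_add (p : (σ →₀ ℕ) → Prop) (F : MvPolynomial σ k) :
    cut p F + cut (fun m => ¬ p m) F = F := by
  ext m
  rw [coeff_add, coeff_cut, coeff_cut]
  by_cases hp : p m
  · rw [if_pos hp, if_neg (not_not.2 hp), add_zero]
  · rw [if_neg hp, if_pos hp, zero_add]

omit [Fintype σ] [Algebra k ℂ] in
lemma nc_of [CharZero k] {F : MvPolynomial σ k} {i : σ} {m : σ →₀ ℕ} (hm : coeff m F ≠ 0)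
    (hi : m i ≠ 0) : Nc F := by
  refine ⟨i, fun h => ?_⟩
  have hle : Finsupp.single i 1 ≤ m := by
    rw [Finsupp.single_le_iff]
    omega
  obtain ⟨m', hm'⟩ := exists_add_of_le hle
  have h1 := coeff_pderiv (i := i) F m'
  rw [h, coeff_zero, add_comm m', ← hm'] at h1
  have h2 : ((m' i : k) + 1) ≠ 0 := by
    have : ((m' i + 1 : ℕ) : k) ≠ 0 := Nat.cast_ne_zero.2 (by omega)
    push_cast at this
    exact this
  exact mul_ne_zero hm h2 h1.symm

omit [Fintype σ] [Algebra k ℂ] in
lemma vars_sub {F : MvPolynomial σ k} {s : Finset σ}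
    (h : ∀ m, coeff m F ≠ 0 → ∀ i, m i ≠ 0 → i ∈ s) : F.vars ⊆ s := by
  intro i hi
  obtain ⟨m, hm, him⟩ := (mem_vars i).1 hi
  exact h m (mem_support_iff.1 hm) i (Finsupp.mem_support_iff.1 him)

/-- the variables with a colour in `J` -/
def sc (c : σ → σ) (J : Finset σ) : Finset σ := Finset.univ.filter fun i => c i ∈ J

lemma mem_sc {c : σ → σ} {J : Finset σ} {i : σ} : i ∈ sc c J ↔ c i ∈ J := by
  rw [sc, Finset.mem_filter]
  exact ⟨fun h => h.2, fun h => ⟨Finset.mem_univ _, h⟩⟩

lemma main [IsAlgClosed k] (hONE : ONEStmt) {c : σ → σ}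
    (hc : ∀ j, (Finset.univ.filter fun i => c i = j).card ≤ 2) (J : Finset σ) :
    ∀ F : MvPolynomial σ k, (sc c J).Nonempty → (∀ m, coeff m F ≠ 0 → ∀ i, m i ≠ 0 → c i ∈ J) →
      (∀ m, coeff m F ≠ 0 → Blk c m) → (∀ i, c i ∈ J → ∃ m, coeff m F ≠ 0 ∧ m i ≠ 0) →
      Qa (sc c J) F := by
  classical
  have : CharZero k := charZero k
  induction J using Finset.induction_on with
  | empty =>
    intro F hne
    obtain ⟨i, hi⟩ := hne
    exact absurd (mem_sc.1 hi) (Finset.notMem_empty _)
  | insert j J hj ih =>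
    intro F hne hv hb hi
    have hsj : (sc c {j}).card ≤ 2 := by
      refine le_trans (Finset.card_le_card ?_) (hc j)
      intro i hi
      rw [Finset.mem_filter]
      exact ⟨Finset.mem_univ _, Finset.mem_singleton.1 (mem_sc.1 hi)⟩
    have hun : sc c (insert j J) = sc c J ∪ sc c {j} := by
      ext i
      rw [Finset.mem_union, mem_sc, mem_sc, mem_sc, Finset.mem_insert, Finset.mem_singleton]
      tauto
    rcases (sc c {j}).eq_empty_or_nonempty with h0 | h0
    · have hJ : sc c (insert j J) = sc c J := by rw [hun, h0, Finset.union_empty]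
      rw [hJ] at hne ⊢
      refine ih F hne ?_ hb fun i h => hi i (Finset.mem_insert_of_mem h)
      intro m hm i him
      have h1 : i ∈ sc c (insert j J) := mem_sc.2 (hv m hm i him)
      rw [hJ] at h1
      exact mem_sc.1 h1
    rcases (sc c J).eq_empty_or_nonempty with h1 | h1
    · have hJ : sc c (insert j J) = sc c {j} := by rw [hun, h1, Finset.empty_union]
      rw [hJ]
      obtain ⟨i, hi0⟩ := h0
      have hij : c i = j := Finset.mem_singleton.1 (mem_sc.1 hi0)
      obtain ⟨m, hm, him⟩ := hi i (by rw [hij]; exact Finset.mem_insert_self _ _)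
      refine Qa.small hONE ⟨i, hi0⟩ hsj (vars_sub fun m hm l hl => ?_) (nc_of hm him)
      rw [← hJ]
      exact mem_sc.2 (hv m hm l hl)
    -- both nonempty
    let p : (σ →₀ ℕ) → Prop := fun m => ∀ i, m i ≠ 0 → c i ∈ J
    have e1 : ∀ m, coeff m (cut p F) ≠ 0 → p m ∧ coeff m F ≠ 0 := by
      intro m hm
      rw [coeff_cut] at hm
      by_cases hp : p m
      · rw [if_pos hp] at hm
        exact ⟨hp, hm⟩
      · rw [if_neg hp] at hm
        exact absurd rfl hm
    have e2 : ∀ m, coeff m (cut (fun m => ¬ p m) F) ≠ 0 → ¬ p m ∧ coeff m F ≠ 0 := by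
      intro m hm
      rw [coeff_cut] at hm
      by_cases hp : ¬ p m
      · rw [if_pos hp] at hm
        exact ⟨hp, hm⟩
      · rw [if_neg hp] at hm
        exact absurd rfl hm
    have q1 : Qa (sc c J) (cut p F) := by
      refine ih _ h1 (fun m hm => (e1 m hm).1) (fun m hm => hb m (e1 m hm).2) ?_
      intro i hiJ
      obtain ⟨m, hm, him⟩ := hi i (Finset.mem_insert_of_mem hiJ)
      refine ⟨m, ?_, him⟩
      rw [coeff_cut, if_pos]
      · exact hm
      · intro l hl
        rw [hb m hm l i hl him]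
        exact hiJ
    have q2 : Qa (sc c {j}) (cut (fun m => ¬ p m) F) := by
      obtain ⟨i, hi0⟩ := h0
      have hij : c i = j := Finset.mem_singleton.1 (mem_sc.1 hi0)
      obtain ⟨m, hm, him⟩ := hi i (by rw [hij]; exact Finset.mem_insert_self _ _)
      have hnp : ¬ p m := by
        intro hp
        have := hp i him
        rw [hij] at this
        exact hj this
      refine Qa.small hONE ⟨i, hi0⟩ hsj (vars_sub fun m hm l hl => ?_)
        (nc_of (m := m) (i := i) (by rw [coeff_cut, if_pos hnp]; exact hm) him)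
      obtain ⟨hp, hmF⟩ := e2 m hm
      have hp' : ∃ l', m l' ≠ 0 ∧ c l' ∉ J := by
        by_contra hcon
        push Not at hcon
        exact hp hcon
      obtain ⟨l', hl', hl'J⟩ := hp'
      have h3 := hv m hmF l' hl'
      rw [Finset.mem_insert] at h3
      rw [mem_sc, Finset.mem_singleton, hb m hmF l l' hl hl']
      exact h3.resolve_right hl'J
    have hd : Disjoint (sc c J) (sc c {j}) := by
      rw [Finset.disjoint_left]
      intro i h2 h3
      have h4 := mem_sc.1 h2
      rw [Finset.mem_singleton.1 (mem_sc.1 h3)] at h4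
      exact hj h4
    have q := q1.add hd q2
    rw [cut_add, ← hun] at q
    exact q

end TSPAux

open TSPAux in
theorem TSP (hONE : ONEStmt) : TSPStmt := by
  intro k _ _ _ σ _ _ _ c F hc hb hi b
  have h := main hONE hc Finset.univ F
    ⟨Classical.arbitrary σ, mem_sc.2 (Finset.mem_univ _)⟩ (fun _ _ _ _ => Finset.mem_univ _) hb
    (fun i _ => hi i)
  let e : {x // x ∈ sc c Finset.univ} ≃ σ :=
    Equiv.subtypeUnivEquiv (fun x => mem_sc.2 (Finset.mem_univ _))
  have h2 := (h.2.2 b).equiv e
  have h3 : rename e (res (sc c Finset.univ) F) = F := rename_res h.2.1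
  rwa [h3] at h2

end Pool.Agent.H87.IS
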